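import Mathlib

/-!
# Project BR: functoriality of the completions of number fields
-/

set_option autoImplicit false

namespace Pool.Agent.Helper82.BR

open NumberField IsDedekindDomain HeightOneSpectrum Ideal.IsDedekindDomain

variable {K L : Type} [Field K] [NumberField K] [Field L] [NumberField L] [Algebra K L]

section map

variable (v : HeightOneSpectrum (𝓞 K)) (w : HeightOneSpectrum (𝓞 L)) [w.asIdeal.LiesOver v.asIdeal]

/-- the map of the completions for `w` over `v` -/
noncomputable def complMap : v.adicCompletion K →+* w.adicCompletion L :=
  (adicCompletion.equiv L w).symm.toRingHom.comp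
    ((UniformSpace.Completion.mapRingHom
      (algebraMap (WithVal (v.valuation K)) (WithVal (w.valuation L)))
      (uniformContinuous_algebraMap_liesOver K L v w).continuous).comp
      (adicCompletion.equiv K v).toRingHom)

theorem complMap_algebraMap (x : K) :
    complMap v w (algebraMap K (v.adicCompletion K) x) =
      algebraMap L (w.adicCompletion L) (algebraMap K L x) := by
  rw [algebraMap_adicCompletion, algebraMap_adicCompletion]
  apply adicCompletion.ext
  simp only [complMap, Function.comp_apply]
  simp only [RingHom.comp_apply]
  change UniformSpace.Completion.mapRingHom _ _ (((WithVal.toVal (v.valuation K) x : WithVal (v.valuation K)) : (v.valuation K).Completion)) = _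
  rw [UniformSpace.Completion.mapRingHom_coe]
  rfl

theorem continuous_complMap : Continuous (complMap v w) := by
  have h1 := adicCompletion.continuous_ofCompletion L w
  have h2 := adicCompletion.continuous_toCompletion K v
  exact h1.comp (UniformSpace.Completion.continuous_map.comp h2)

theorem valued_complMap (x : v.adicCompletion K) :
    Valued.v (complMap v w x) = Valued.v x ^ v.asIdeal.ramificationIdx' w.asIdeal := by
  by_cases hx : x = 0
  · subst hx
    rw [map_zero, map_zero, map_zero, zero_pow]
    exact ramificationIdx'_ne_zero_of_liesOver w.asIdeal v.ne_bot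
  · have hd := denseRange_algebraMap (K := K) v
    have hfx : complMap v w x ≠ 0 := by
      rw [Ne, map_eq_zero]; exact hx
    have h1 : {y | Valued.v y = Valued.v x} ∈ nhds x :=
      Valued.locally_const ((Valuation.ne_zero_iff _).2 hx)
    have h2 : {y | Valued.v y = Valued.v (complMap v w x)} ∈ nhds (complMap v w x) :=
      Valued.locally_const ((Valuation.ne_zero_iff _).2 hfx)
    have h3 := (continuous_complMap v w).continuousAt.preimage_mem_nhds h2
    obtain ⟨y, hy, k, hk⟩ := mem_closure_iff_nhds.1 (hd x) _ (Filter.inter_mem h1 h3)
    subst hk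
    have h4 : Valued.v (algebraMap K (v.adicCompletion K) k) = Valued.v x := hy.1
    have h5 : Valued.v (complMap v w (algebraMap K (v.adicCompletion K) k)) =
      Valued.v (complMap v w x) := hy.2
    rw [← h5, ← h4, complMap_algebraMap, algebraMap_adicCompletion, algebraMap_adicCompletion]
    simp only [Function.comp_apply, Algebra.algebraMap_self, RingHom.id_apply]
    rw [valuedAdicCompletion_eq_valuation', valuedAdicCompletion_eq_valuation',
      ← valuation_liesOver L v w]

theorem complMap_mem (x : v.adicCompletion K) :
    complMap v w x ∈ w.adicCompletionIntegers L ↔ x ∈ v.adicCompletionIntegers K := by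
  rw [mem_adicCompletionIntegers, mem_adicCompletionIntegers, valued_complMap]
  exact pow_le_one_iff (ramificationIdx'_ne_zero_of_liesOver w.asIdeal v.ne_bot)

/-- representations over `K_v` give representations over `L_w` -/
theorem rep_up {A : Type} [Ring A] [Algebra K A] {m : ℕ}
    (h : Nonempty (A →ₐ[K] Matrix (Fin m) (Fin m) (v.adicCompletion K))) :
    Nonempty ((TensorProduct K L A) →ₐ[L] Matrix (Fin m) (Fin m) (w.adicCompletion L)) := by
  obtain ⟨f⟩ := h
  let g : A →ₐ[K] Matrix (Fin m) (Fin m) (w.adicCompletion L) :=
    { (complMap v w).mapMatrix.comp f.toRingHom with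
      commutes' := fun r => by
        simp only [RingHom.toMonoidHom_eq_coe, OneHom.toFun_eq_coe, MonoidHom.toOneHom_coe,
          MonoidHom.coe_coe, RingHom.comp_apply, AlgHom.toRingHom_eq_coe, RingHom.coe_coe,
          AlgHom.commutes]
        rw [Matrix.algebraMap_eq_diagonal, Matrix.algebraMap_eq_diagonal, RingHom.mapMatrix_apply,
          Matrix.diagonal_map (map_zero _)]
        congr 1
        funext i
        exact complMap_algebraMap v w r }
  exact ⟨Algebra.TensorProduct.lift (Algebra.ofId L _) g (fun a b => Algebra.commutes a _)⟩

end map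

/-- the place below -/
noncomputable def below (K : Type) {L : Type} [Field K] [NumberField K] [Field L] [NumberField L]
    [Algebra K L] (w : HeightOneSpectrum (𝓞 L)) : HeightOneSpectrum (𝓞 K) where
  asIdeal := w.asIdeal.under (𝓞 K)
  isPrime := inferInstance
  ne_bot := Ideal.IsIntegral.comap_ne_bot (𝓞 K) w.ne_bot

instance (w : HeightOneSpectrum (𝓞 L)) : w.asIdeal.LiesOver (below K w).asIdeal :=
  inferInstanceAs (w.asIdeal.LiesOver (w.asIdeal.under (𝓞 K)))

/-- representations over all completions go up -/
theorem rep_up_all {A : Type} [Ring A] [Algebra K A] {m : ℕ}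
    (h : ∀ v : HeightOneSpectrum (𝓞 K),
      Nonempty (A →ₐ[K] Matrix (Fin m) (Fin m) (v.adicCompletion K)))
    (w : HeightOneSpectrum (𝓞 L)) :
    Nonempty ((TensorProduct K L A) →ₐ[L] Matrix (Fin m) (Fin m) (w.adicCompletion L)) :=
  rep_up (below K w) w (h (below K w))

end Pool.Agent.Helper82.BR
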