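import Pool.Agent.Helper82.BR.Split
import Pool.Agent.Helper47.BR.Alg

/-!
# Project BR: `LocNF` from `LocalSplit`
-/

set_option autoImplicit false

namespace Pool.Agent.Helper82.BR

/-- the local input of `alg_br` -/
theorem locNF_of (LS : LocalSplit) : Pool.Agent.Helper47.BR.LocNF :=
  fun _ _ _ _ _ _ _ v w _ _ _ hm hf hmf hq _ _ _ _ _ _ hA =>
    rep_of_residue_degree LS v w hm hmf hf hq hA

end Pool.Agent.Helper82.BR
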