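import Pool.Agent.Helper82.BR.Compl
import Pool.Agent.Helper56.BR.Defs

/-!
# Project BR, piece P0: the completions of number fields
-/

set_option autoImplicit false

namespace Pool.Agent.Helper82.BR

open NumberField IsDedekindDomain HeightOneSpectrum Ideal.IsDedekindDomain WithZero
open Pool.Agent.Helper56.BR

variable {K : Type} [Field K] [NumberField K] (v : HeightOneSpectrum (𝓞 K))

theorem norm_lt_one_iff (x : v.adicCompletion K) : ‖x‖ < 1 ↔ Valued.v x < 1 := by
  rw [FinitePlace.norm_def]
  have h := WithZeroMulInt.toNNReal_strictMono (one_lt_absNorm_nnreal v)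
  have h1 : WithZeroMulInt.toNNReal (absNorm_ne_zero v) 1 = 1 := map_one _
  rw [← h.lt_iff_lt, h1]
  norm_cast

theorem norm_le_one_iff (x : v.adicCompletion K) : ‖x‖ ≤ 1 ↔ Valued.v x ≤ 1 := by
  rw [FinitePlace.norm_def]
  have h := WithZeroMulInt.toNNReal_strictMono (one_lt_absNorm_nnreal v)
  have h1 : WithZeroMulInt.toNNReal (absNorm_ne_zero v) 1 = 1 := map_one _
  rw [← h.le_iff_le, h1]
  norm_cast

theorem norm_exp (x : v.adicCompletion K) (n : ℤ) (h : Valued.v x = exp n) :
    ‖x‖ = (Ideal.absNorm v.asIdeal : ℝ) ^ n := by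
  rw [FinitePlace.norm_def, h, WithZeroMulInt.toNNReal_neg_apply _ (exp_ne_zero)]
  push_cast
  rfl

/-- approximation by integers -/
theorem exists_int_sub_lt (x : v.adicCompletion K) (hx : Valued.v x ≤ 1) :
    ∃ a : 𝓞 K, Valued.v (x - algebraMap K (v.adicCompletion K) (a : K)) < 1 := by
  have hd := denseRange_algebraMap (K := K) v
  obtain ⟨y, hy, k, hk⟩ := mem_closure_iff_nhds.1 (hd x) _ (Metric.ball_mem_nhds x one_pos)
  subst hk
  rw [Metric.mem_ball, dist_eq_norm, norm_lt_one_iff] at hy
  have hk1 : v.valuation K k ≤ 1 := by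
    have h1 : Valued.v (algebraMap K (v.adicCompletion K) k) ≤ 1 := by
      have h2 : algebraMap K (v.adicCompletion K) k =
        (algebraMap K (v.adicCompletion K) k - x) + x := by ring
      rw [h2]
      exact (Valuation.map_add _ _ _).trans (max_le hy.le hx)
    rw [algebraMap_adicCompletion] at h1
    simpa [valuedAdicCompletion_eq_valuation'] using h1
  obtain ⟨a, ha⟩ := exists_valuation_sub_lt_of_integer v hk1 1
  refine ⟨a, ?_⟩
  have h3 : x - algebraMap K (v.adicCompletion K) (a : K) =
      -(algebraMap K (v.adicCompletion K) k - x) -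
        algebraMap K (v.adicCompletion K) (algebraMap (𝓞 K) K a - k) := by
    rw [map_sub]; ring
  rw [h3]
  refine (Valuation.map_sub _ _ _).trans_lt (max_lt ?_ ?_)
  · rw [Valuation.map_neg]; exact hy
  · rw [algebraMap_adicCompletion, Function.comp_apply, valuedAdicCompletion_eq_valuation']
    simpa using ha

theorem valued_algebraMap (k : K) :
    Valued.v (algebraMap K (v.adicCompletion K) k) = v.valuation K k := by
  rw [algebraMap_adicCompletion, Function.comp_apply, valuedAdicCompletion_eq_valuation']
  simp

theorem valued_algebraMap_int_lt (a : 𝓞 K) :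
    Valued.v (algebraMap K (v.adicCompletion K) (a : K)) < 1 ↔ a ∈ v.asIdeal := by
  rw [valued_algebraMap]
  exact valuation_lt_one_iff_mem v a

theorem valued_algebraMap_int_le (a : 𝓞 K) :
    Valued.v (algebraMap K (v.adicCompletion K) (a : K)) ≤ 1 := by
  rw [valued_algebraMap]
  exact valuation_le_one v a

/-- a uniformizer -/
theorem exists_unif : ∃ p : v.adicCompletion K, Valued.v p = exp (-1 : ℤ) := by
  obtain ⟨π, hπ⟩ := v.valuation_exists_uniformizer K
  exact ⟨algebraMap K _ π, by rw [valued_algebraMap, hπ]⟩

/-- the nontrivially normed field -/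
@[reducible] noncomputable def nnf : NontriviallyNormedField (v.adicCompletion K) :=
  { HeightOneSpectrum.instNormedFieldValuedAdicCompletion K v with
    non_trivial := by
      obtain ⟨p, hp⟩ := exists_unif v
      refine ⟨p⁻¹, ?_⟩
      rw [norm_inv, norm_exp v p _ hp, zpow_neg, inv_inv, zpow_one]
      exact_mod_cast one_lt_absNorm v }

/-- the completions of number fields are local fields -/
theorem lf_nnf : ∃ p, @LF _ (nnf v) (Ideal.absNorm v.asIdeal) p := by
  classical
  obtain ⟨p, hp⟩ := exists_unif v
  have hq := one_lt_absNorm v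
  have hp1 : ‖p‖ = (Ideal.absNorm v.asIdeal : ℝ)⁻¹ := by
    rw [norm_exp v p _ hp, zpow_neg_one]
  refine ⟨p, ?_⟩
  · refine @LF.mk _ (nnf v) _ _ hq ?_ ?_ ?_ ?_ ?_
    · have h1 : (Ideal.absNorm v.asIdeal : 𝓞 K) ∈ v.asIdeal := Ideal.absNorm_mem _
      have h2 := (valued_algebraMap_int_lt v _).2 h1
      rw [← norm_lt_one_iff] at h2
      simpa using h2
    · change 0 < ‖p‖
      rw [hp1]; positivity
    · change ‖p‖ < 1
      rw [norm_lt_one_iff, hp]
      decide
    · intro x hx
      change ∃ n : ℤ, ‖x‖ = ‖p‖ ^ n
      have h1 : Valued.v x ≠ 0 := (Valuation.ne_zero_iff _).2 hx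
      refine ⟨-(log (Valued.v x)), ?_⟩
      rw [norm_exp v x _ (exp_log h1).symm, hp1, inv_zpow', neg_neg]
    · have hfin : Finite (𝓞 K ⧸ v.asIdeal) := v.asIdeal.finiteQuotientOfFreeOfNeBot v.ne_bot
      let _ : Fintype (𝓞 K ⧸ v.asIdeal) := Fintype.ofFinite _
      let g : 𝓞 K ⧸ v.asIdeal → v.adicCompletion K :=
        fun c => algebraMap K (v.adicCompletion K) ((Quotient.out c : 𝓞 K) : K)
      have hg : ∀ c : 𝓞 K ⧸ v.asIdeal, Ideal.Quotient.mk v.asIdeal (Quotient.out c) = c :=
        fun c => Quotient.out_eq c
      have key : ∀ a b : 𝓞 K, Valued.v (algebraMap K (v.adicCompletion K) (a : K) -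
          algebraMap K (v.adicCompletion K) (b : K)) < 1 →
          Ideal.Quotient.mk v.asIdeal a = Ideal.Quotient.mk v.asIdeal b := by
        intro a b hab
        rw [← map_sub] at hab
        rw [Ideal.Quotient.eq]
        exact (valued_algebraMap_int_lt v (a - b)).1 (by simpa using hab)
      refine ⟨Finset.univ.image g, ?_, ?_, ?_⟩
      · rw [Finset.card_image_of_injective, Finset.card_univ, ← Nat.card_eq_fintype_card]
        · rfl
        · intro c c' hcc
          have h1 := key (Quotient.out c) (Quotient.out c') (by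
            have h2 : algebraMap K (v.adicCompletion K) ((Quotient.out c : 𝓞 K) : K) =
              algebraMap K (v.adicCompletion K) ((Quotient.out c' : 𝓞 K) : K) := hcc
            rw [h2, sub_self, map_zero]
            exact zero_lt_one)
          rwa [hg, hg] at h1
      · intro x hx
        obtain ⟨c, -, rfl⟩ := Finset.mem_image.1 hx
        change ‖g c‖ ≤ 1
        rw [norm_le_one_iff]
        exact valued_algebraMap_int_le v _
      · intro x hx
        have hx1 : Valued.v x ≤ 1 := (norm_le_one_iff v x).1 hx
        obtain ⟨a, ha⟩ := exists_int_sub_lt v x hx1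
        have h3 : Valued.v (algebraMap K (v.adicCompletion K) (a : K) -
            g (Ideal.Quotient.mk v.asIdeal a)) < 1 := by
          have h4 : Ideal.Quotient.mk v.asIdeal a =
            Ideal.Quotient.mk v.asIdeal (Quotient.out (Ideal.Quotient.mk v.asIdeal a)) :=
            (hg _).symm
          rw [Ideal.Quotient.eq] at h4
          have h5 := (valued_algebraMap_int_lt v _).2 h4
          simpa [g] using h5
        refine ⟨g (Ideal.Quotient.mk v.asIdeal a), ⟨Finset.mem_image_of_mem _ (Finset.mem_univ _),
          ?_⟩, ?_⟩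
        · change ‖x - g (Ideal.Quotient.mk v.asIdeal a)‖ < 1
          rw [norm_lt_one_iff]
          have h6 : x - g (Ideal.Quotient.mk v.asIdeal a) =
            (x - algebraMap K (v.adicCompletion K) (a : K)) +
            (algebraMap K (v.adicCompletion K) (a : K) - g (Ideal.Quotient.mk v.asIdeal a)) := by
            ring
          rw [h6]
          exact (Valuation.map_add _ _ _).trans_lt (max_lt ha h3)
        · rintro s ⟨hs, hs1⟩
          obtain ⟨c, -, rfl⟩ := Finset.mem_image.1 hs
          have hs2 : Valued.v (x - g c) < 1 := (norm_lt_one_iff v _).1 hs1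
          have h7 := key a (Quotient.out c) (by
            have h8 : algebraMap K (v.adicCompletion K) (a : K) -
              algebraMap K (v.adicCompletion K) ((Quotient.out c : 𝓞 K) : K) =
              (x - g c) - (x - algebraMap K (v.adicCompletion K) (a : K)) := by
              simp only [g]; ring
            rw [h8]
            exact (Valuation.map_sub _ _ _).trans_lt (max_lt hs2 ha))
          rw [hg] at h7
          rw [h7]

/-- **P0**: the completions of number fields are local fields -/
theorem lf_adic {K : Type} [Field K] [NumberField K]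
    (v : IsDedekindDomain.HeightOneSpectrum (NumberField.RingOfIntegers K)) :
    ∃ i : NontriviallyNormedField (v.adicCompletion K),
      i.toNormedField.toField = (inferInstance : Field (v.adicCompletion K)) ∧
      @IsUltrametricDist _ i.toNormedField.toMetricSpace.toDist ∧
      @CompleteSpace _ i.toNormedField.toMetricSpace.toUniformSpace ∧
      ∃ p, @LF _ i (Ideal.absNorm v.asIdeal) p :=
  ⟨nnf v, rfl, (inferInstance : IsUltrametricDist (v.adicCompletion K)),
    (inferInstance : CompleteSpace (v.adicCompletion K)), lf_nnf v⟩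

end Pool.Agent.Helper82.BR
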