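import Pool.Agent.Helper45.BR.Base
import Pool.Agent.Helper8.BR.Defs

/-! Project BR, A1: representations at the infinite places. -/

set_option autoImplicit false

namespace Pool.Agent.Helper82.BR

open NumberField IsDedekindDomain Polynomial Module Pool.Agent.Helper8.BR

open scoped TensorProduct

/-- A1: representations at the infinite places -/
theorem arch_rep {L D : Type} [Field L] [Ring D] [Algebra L D] [Algebra.IsCentral L D]
    [IsSimpleRing D] [Module.Finite L D] [Algebra L ℂ] {d : ℕ} (hd0 : 0 < d)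
    (hd : finrank L D = d ^ 2) : Nonempty (D →ₐ[L] Matrix (Fin d) (Fin d) ℂ) := by
  have h1 : IsSimpleRing (ℂ ⊗[L] D) := Pool.Agent.Helper45.BR.isSimple_baseChange L ℂ D
  obtain ⟨n, hn, ⟨e⟩⟩ := IsSimpleRing.exists_algEquiv_matrix_of_isAlgClosed ℂ (ℂ ⊗[L] D)
  have h2 : finrank ℂ (ℂ ⊗[L] D) = d ^ 2 := by
    rw [Module.finrank_baseChange, hd]
  have h3 : finrank ℂ (ℂ ⊗[L] D) = n ^ 2 := by
    rw [e.toLinearEquiv.finrank_eq, Module.finrank_matrix]
    simp [sq]
  have h4 : n = d := by
    have h5 : n ^ 2 = d ^ 2 := by rw [← h3, h2]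
    exact Nat.pow_left_injective two_ne_zero h5
  subst h4
  exact ⟨(e.toAlgHom.restrictScalars L).comp (Algebra.TensorProduct.includeRight)⟩

end Pool.Agent.Helper82.BR
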