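import Pool.Agent.Helper82.BR.P0
import Pool.Agent.Helper8.BR.Defs

/-! Project BR, block GLOB: O3, O4. -/

set_option autoImplicit false

namespace Pool.Agent.Helper82.BR

open NumberField IsDedekindDomain Polynomial Module Pool.Agent.Helper8.BR

variable {L D : Type} [Field L] [NumberField L] [Ring D] [Algebra L D] [Module.Finite L D]

/-- the coefficients of the characteristic polynomial of an integral matrix are integral -/
theorem charpoly_coeff_mem {F ι : Type} [Field F] [Fintype ι] [DecidableEq ι] (R : Subring F)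
    (M : Matrix ι ι F) (hM : ∀ i j, M i j ∈ R) (n : ℕ) : M.charpoly.coeff n ∈ R := by
  let M' : Matrix ι ι R := fun i j => ⟨M i j, hM i j⟩
  have h1 : M = M'.map R.subtype := by
    ext i j; rfl
  rw [h1, Matrix.charpoly_map, coeff_map]
  exact (M'.charpoly.coeff n).2

/-- O3, with R2 as a hypothesis -/
theorem rep_int_of {d : ℕ} (w : HeightOneSpectrum (𝓞 L))
    (φ : D →ₐ[L] Matrix (Fin d) (Fin d) (w.adicCompletion L)) (x : D)
    (hchi : (chi L x).map (algebraMap L (w.adicCompletion L)) =
      (Matrix.kronecker (φ x) (1 : Matrix (Fin d) (Fin d) (w.adicCompletion L))).charpoly)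
    (hx : ∀ i j, φ x i j ∈ w.adicCompletionIntegers L) : IntD w x := by
  intro i
  have h1 : ((chi L x).map (algebraMap L (w.adicCompletion L))).coeff i ∈
      (w.adicCompletionIntegers L).toSubring := by
    rw [hchi]
    refine charpoly_coeff_mem _ _ (fun p q => ?_) i
    change φ x p.1 q.1 * (1 : Matrix (Fin d) (Fin d) (w.adicCompletion L)) p.2 q.2 ∈ _
    refine Subring.mul_mem _ (hx _ _) ?_
    by_cases h : p.2 = q.2
    · rw [h, Matrix.one_apply_eq]; exact Subring.one_mem _
    · rw [Matrix.one_apply_ne h]; exact Subring.zero_mem _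
  rw [coeff_map] at h1
  have h2 : Valued.v (algebraMap L (w.adicCompletion L) ((chi L x).coeff i)) ≤ 1 := h1
  rwa [valued_algebraMap] at h2

/-- O4: trace integral everywhere, small at infinity, hence zero -/
theorem trace_zero {N : ℕ} (hN : finrank L D = N) (x : D) (hx : ∀ w : HeightOneSpectrum (𝓞 L), IntD w x)
    (h : ∀ v : InfinitePlace L, v (tr L x) < 1) : tr L x = 0 := by
  classical
  rcases Nat.eq_zero_or_pos N with h0 | h0
  · have h1 : Subsingleton D := by
      rw [← Module.finrank_zero_iff (R := L), hN, h0]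
    have h2 : LinearMap.mulLeft L x = 0 := by
      ext y; exact Subsingleton.elim _ _
    unfold tr
    rw [h2, map_zero]
  · have hint : ∀ w : HeightOneSpectrum (𝓞 L), w.valuation L (tr L x) ≤ 1 := by
      intro w
      let b := Module.Free.chooseBasis L D
      have hcard : Fintype.card (Module.Free.ChooseBasisIndex L D) = N := by
        rw [← Module.finrank_eq_card_chooseBasisIndex, hN]
      have hne : Nonempty (Module.Free.ChooseBasisIndex L D) := by
        rw [← Fintype.card_pos_iff, hcard]; exact h0
      have h3 : tr L x = -(chi L x).coeff (N - 1) := by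
        unfold tr chi
        rw [LinearMap.trace_eq_matrix_trace L b, Matrix.trace_eq_neg_charpoly_coeff,
          LinearMap.charpoly_toMatrix, hcard]
      rw [h3, Valuation.map_neg]
      exact hx w _
    obtain ⟨a, ha⟩ := HeightOneSpectrum.mem_integers_of_valuation_le_one L _ hint
    by_contra hne
    have ha0 : a ≠ 0 := by
      rintro rfl
      rw [map_zero] at ha
      exact hne ha.symm
    have h4 := InfinitePlace.prod_eq_abs_norm (tr L x)
    have h5 : ∏ v : InfinitePlace L, v (tr L x) ^ v.mult < 1 := by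
      obtain ⟨v0⟩ : Nonempty (InfinitePlace L) := inferInstance
      refine (Finset.prod_lt_prod (fun v _ => ?_) (fun v _ => ?_) ⟨v0, Finset.mem_univ _, ?_⟩).trans_eq
        (Finset.prod_const_one)
      · exact pow_pos (v.pos_iff.2 hne) _
      · exact pow_le_one₀ (apply_nonneg v _) (h v).le
      · exact pow_lt_one₀ (apply_nonneg v0 _) (h v0) v0.mult_pos.ne'
    rw [h4, ← ha] at h5
    have h6 : (1 : ℚ) ≤ |Algebra.norm ℚ (algebraMap (𝓞 L) L a)| := by
      have h7 : Algebra.norm ℚ (algebraMap (𝓞 L) L a) = (Algebra.norm ℤ a : ℤ) := by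
        rw [← Algebra.coe_norm_int]
      rw [h7, ← Int.cast_abs]
      have h8 : Algebra.norm ℤ a ≠ 0 := by
        rw [Ne, Algebra.norm_eq_zero_iff]; exact ha0
      exact_mod_cast Int.one_le_abs h8
    have h9 : (1 : ℝ) ≤ ((|Algebra.norm ℚ (algebraMap (𝓞 L) L a)| : ℚ) : ℝ) := by exact_mod_cast h6
    linarith

end Pool.Agent.Helper82.BR
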