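import Pool.Agent.Helper82.BR.P0
import Pool.Agent.Helper45.BR.Base

/-!
# Project BR: local splitting for number fields
-/

set_option autoImplicit false

namespace Pool.Agent.Helper82.BR

open NumberField IsDedekindDomain HeightOneSpectrum Ideal.IsDedekindDomain WithZero
open Pool.Agent.Helper56.BR
open scoped TensorProduct

/-- the statement of `local_split` (block LOC) -/
def LocalSplit : Prop :=
  ∀ {F : Type} [NontriviallyNormedField F] [IsUltrametricDist F]
    [CompleteSpace F] {q : ℕ} {p : F} (_ : LF F q p)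
    {L : Type} [NontriviallyNormedField L] [IsUltrametricDist L] [CompleteSpace L]
    {q' : ℕ} {p' : L} (_ : LF L q' p') [Algebra F L] {m f : ℕ} (_ : 0 < m)
    (_ : m ∣ f) (_ : 0 < f) (_ : q' = q ^ f) {A : Type} [Ring A] [Algebra F A]
    [IsSimpleRing A] [Algebra.IsCentral F A] (_ : Module.finrank F A = m ^ 2),
    Rep F A L m

variable {K L : Type} [Field K] [NumberField K] [Field L] [NumberField L] [Algebra K L]

/-- **local splitting for number fields** -/
theorem local_split_nf_of (LS : LocalSplit) (v : HeightOneSpectrum (𝓞 K))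
    (w : HeightOneSpectrum (𝓞 L)) [w.asIdeal.LiesOver v.asIdeal] {m f : ℕ} (hm : 0 < m)
    (hmf : m ∣ f) (hf : 0 < f)
    (hq : Ideal.absNorm w.asIdeal = Ideal.absNorm v.asIdeal ^ f)
    {A : Type} [Ring A] [Algebra (v.adicCompletion K) A] [IsSimpleRing A]
    [Algebra.IsCentral (v.adicCompletion K) A]
    (hA : Module.finrank (v.adicCompletion K) A = m ^ 2) :
    ∃ φ : A →+* Matrix (Fin m) (Fin m) (w.adicCompletion L),
      ∀ c : v.adicCompletion K, φ (algebraMap (v.adicCompletion K) A c) =
        Matrix.scalar (Fin m) (complMap v w c) := by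
  let _ : NontriviallyNormedField (v.adicCompletion K) := nnf v
  let _ : NontriviallyNormedField (w.adicCompletion L) := nnf w
  have h1 : IsUltrametricDist (v.adicCompletion K) := inferInstance
  have h2 : CompleteSpace (v.adicCompletion K) := inferInstance
  have h3 : IsUltrametricDist (w.adicCompletion L) := inferInstance
  have h4 : CompleteSpace (w.adicCompletion L) := inferInstance
  obtain ⟨p, hp⟩ := lf_nnf v
  obtain ⟨p', hp'⟩ := lf_nnf w
  let _ : Algebra (v.adicCompletion K) (w.adicCompletion L) := (complMap v w).toAlgebra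
  obtain ⟨φ⟩ := LS hp hp' hm hmf hf hq hA
  exact ⟨φ.toRingHom, fun c => φ.commutes c⟩

/-- global form: a central simple algebra over `K` is represented over `L_w` if the degree divides
the residue degree -/
theorem rep_of_residue_degree (LS : LocalSplit) (v : HeightOneSpectrum (𝓞 K))
    (w : HeightOneSpectrum (𝓞 L)) [w.asIdeal.LiesOver v.asIdeal] {m f : ℕ} (hm : 0 < m)
    (hmf : m ∣ f) (hf : 0 < f)
    (hq : Ideal.absNorm w.asIdeal = Ideal.absNorm v.asIdeal ^ f)
    {A : Type} [Ring A] [Algebra K A] [IsSimpleRing A] [Algebra.IsCentral K A]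
    (hA : Module.finrank K A = m ^ 2) :
    Nonempty (A →ₐ[K] Matrix (Fin m) (Fin m) (w.adicCompletion L)) := by
  have h1 : IsSimpleRing ((v.adicCompletion K) ⊗[K] A) :=
    Pool.Agent.Helper45.BR.isSimple_baseChange K (v.adicCompletion K) A
  have h2 : Algebra.IsCentral (v.adicCompletion K) ((v.adicCompletion K) ⊗[K] A) :=
    Pool.Agent.Helper45.BR.isCentral_baseChange K (v.adicCompletion K) A
  obtain ⟨φ, hφ⟩ := local_split_nf_of LS v w hm hmf hf hq
    (A := (v.adicCompletion K) ⊗[K] A) (by rw [Module.finrank_baseChange, hA])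
  refine ⟨{ φ.comp (Algebra.TensorProduct.includeRight :
      A →ₐ[K] (v.adicCompletion K) ⊗[K] A).toRingHom with commutes' := fun r => ?_ }⟩
  have h3 : (Algebra.TensorProduct.includeRight : A →ₐ[K] (v.adicCompletion K) ⊗[K] A)
      (algebraMap K A r) = algebraMap (v.adicCompletion K) ((v.adicCompletion K) ⊗[K] A)
        (algebraMap K (v.adicCompletion K) r) := by
    rw [AlgHom.commutes]
    rfl
  change φ ((Algebra.TensorProduct.includeRight : A →ₐ[K] (v.adicCompletion K) ⊗[K] A)
      (algebraMap K A r)) = _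
  rw [h3, hφ, complMap_algebraMap, Matrix.algebraMap_eq_diagonal, Matrix.scalar_apply]
  congr 1

/-- the same after base change -/
theorem rep_tensor_of_residue_degree (LS : LocalSplit) (v : HeightOneSpectrum (𝓞 K))
    (w : HeightOneSpectrum (𝓞 L)) [w.asIdeal.LiesOver v.asIdeal] {m f : ℕ} (hm : 0 < m)
    (hmf : m ∣ f) (hf : 0 < f)
    (hq : Ideal.absNorm w.asIdeal = Ideal.absNorm v.asIdeal ^ f)
    {A : Type} [Ring A] [Algebra K A] [IsSimpleRing A] [Algebra.IsCentral K A]
    (hA : Module.finrank K A = m ^ 2) :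
    Nonempty ((TensorProduct K L A) →ₐ[L] Matrix (Fin m) (Fin m) (w.adicCompletion L)) := by
  obtain ⟨g⟩ := rep_of_residue_degree LS v w hm hmf hf hq hA
  exact ⟨Algebra.TensorProduct.lift (Algebra.ofId L _) g (fun a b => Algebra.commutes a _)⟩

end Pool.Agent.Helper82.BR
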